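import Mathlib

set_option autoImplicit false

/-!
# MP_93535d_co: an integral fractional broadcast number strictly between multipacking number and
broadcast number

The graph is the lexicographic product `C₈[K_{3,3}]`.  Closed neighbourhoods have `16` elements,
balls of radius `2` and `3` have at most `30 < 2 · 16` and `42 < 3 · 16` elements, and there are
`48 = 3 · 16` vertices, so the fractional broadcast number is `3`.  A dominating broadcast of cost
`3` or a multipacking of size `3` would be a perfect code, and there is none.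
-/

open SimpleGraph

namespace Pool.Agent.Results.MP_93535d_co.PerfectCodeFree

/-- The eccentricity `e(v) = max_u d(u, v)`. -/
noncomputable def ecc {V : Type} [Fintype V] (G : SimpleGraph V) (v : V) : ℕ :=
  Finset.univ.sup fun u => G.dist u v

/-- `f` is a broadcast (`f(v) ≤ e(v)` for all `v`) and it is dominating: every vertex `u` has a
vertex `v` with `f(v) ≥ 1` and `d(u, v) ≤ f(v)`. -/
structure IsDominatingBroadcast {V : Type} [Fintype V] (G : SimpleGraph V) (f : V → ℕ) :
    Prop where
  le_ecc : ∀ v, f v ≤ ecc G v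
  dominates : ∀ u, ∃ v, 1 ≤ f v ∧ G.dist u v ≤ f v

/-- The broadcast domination number `γ_b(G)`: the minimum cost of a dominating broadcast. -/
noncomputable def broadcastNumber {V : Type} [Fintype V] (G : SimpleGraph V) : ℕ :=
  sInf {c | ∃ f : V → ℕ, IsDominatingBroadcast G f ∧ ∑ v, f v = c}

/-- `M` is a multipacking: `|N_k[v] ∩ M| ≤ k` for every vertex `v` and every `k ≥ 1`. -/
def IsMultipacking {V : Type} (G : SimpleGraph V) (M : Finset V) : Prop :=
  ∀ v, ∀ k : ℕ, 1 ≤ k → {u | u ∈ M ∧ G.dist u v ≤ k}.ncard ≤ k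

/-- The multipacking number `mp(G)`. -/
noncomputable def multipackingNumber {V : Type} (G : SimpleGraph V) : ℕ :=
  sSup {m | ∃ M : Finset V, IsMultipacking G M ∧ M.card = m}

/-- `x` is a feasible point of the linear program defining the fractional broadcast number. -/
structure IsFeasible {V : Type} [Fintype V] (G : SimpleGraph V) (x : V → ℕ → ℝ) : Prop where
  nonneg : ∀ v, ∀ k ∈ Finset.Icc 1 (ecc G v), 0 ≤ x v k
  dominates : ∀ u, 1 ≤ ∑ v, ∑ k ∈ Finset.Icc 1 (ecc G v), if G.dist u v ≤ k then x v k else 0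

/-- The fractional broadcast number `γ_{b,f}(G)`: the optimum of the linear program. -/
noncomputable def fractionalBroadcastNumber {V : Type} [Fintype V] (G : SimpleGraph V) : ℝ :=
  sInf {c | ∃ x : V → ℕ → ℝ, IsFeasible G x ∧
    ∑ v, ∑ k ∈ Finset.Icc 1 (ecc G v), (k : ℝ) * x v k = c}

/-! ### The graph `C₈[K_{3,3}]` -/

/-- the vertex set: `8` fibres of `6` vertices -/
abbrev W : Type := Fin 8 × Fin 6

/-- adjacency in `C₈[K_{3,3}]` -/
def adjB (u v : W) : Bool :=
  decide (u.1 = v.1 + 1) || decide (v.1 = u.1 + 1) ||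
    (decide (u.1 = v.1) && decide (u.2.val % 2 ≠ v.2.val % 2))

/-- The lexicographic product `C₈[K_{3,3}]`. -/
def G : SimpleGraph W where
  Adj u v := adjB u v = true
  symm := ⟨by decide +kernel⟩
  loopless := ⟨by decide +kernel⟩

theorem adj_iff (u v : W) : G.Adj u v ↔ adjB u v = true := Iff.rfl

/-- cyclic distance from `0` in `ℤ/8` -/
def cyc (x : Fin 8) : ℕ := min x.val (8 - x.val)

theorem cyc_step : ∀ (i : Fin 8) (u v : W), adjB u v = true → cyc (v.1 - i) ≤ cyc (u.1 - i) + 1 := by
  decide +kernel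

theorem cyc_le_walk {u v : W} (p : G.Walk u v) (i : Fin 8) :
    cyc (u.1 - i) ≤ cyc (v.1 - i) + p.length := by
  induction p with
  | nil => simp
  | @cons a b c h q ih =>
    have h1 := cyc_step i b a ((adj_iff _ _).1 h.symm)
    rw [Walk.length_cons]
    omega

theorem reach_next (i : Fin 8) (a b : Fin 6) : G.Reachable (i, a) (i + 1, b) := by
  apply Adj.reachable
  rw [adj_iff]
  revert i a b
  decide +kernel

theorem reach_far (n : ℕ) : ∀ (i : Fin 8) (a b : Fin 6),
    G.Reachable (i, a) ((fun x => x + 1)^[n + 1] i, b) := by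
  induction n with
  | zero =>
    intro i a b
    exact reach_next i a b
  | succ n ih =>
    intro i a b
    have h1 := ih i a b
    have h2 := reach_next ((fun x => x + 1)^[n + 1] i) b b
    rw [Function.iterate_succ_apply']
    exact h1.trans h2

theorem exists_iterate : ∀ i j : Fin 8, ∃ n : Fin 8, (fun x : Fin 8 => x + 1)^[n.val + 1] i = j := by
  decide +kernel

theorem connected : G.Connected := by
  have : Nonempty W := ⟨(0, 0)⟩
  refine ⟨fun u v => ?_⟩
  obtain ⟨i, a⟩ := u
  obtain ⟨j, b⟩ := v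
  obtain ⟨n, hn⟩ := exists_iterate i j
  have h1 := reach_far n.val i a b
  rw [hn] at h1
  exact h1

theorem cyc_le_dist (u v : W) : cyc (u.1 - v.1) ≤ G.dist u v := by
  obtain ⟨p, hp⟩ := connected.exists_walk_length_eq_dist u v
  have := cyc_le_walk p v.1
  rw [hp] at this
  have h0 : cyc (v.1 - v.1) = 0 := by
    simp [cyc]
  omega

theorem dist_le_one_iff (u v : W) : G.dist u v ≤ 1 ↔ u = v ∨ adjB u v = true := by
  constructor
  · intro h
    rcases Nat.lt_or_ge (G.dist u v) 1 with h1 | h1
    · left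
      exact (connected.dist_eq_zero_iff).1 (by omega)
    · right
      exact (adj_iff _ _).1 (dist_eq_one_iff_adj.1 (by omega))
  · rintro (h | h)
    · subst h
      simp
    · exact (dist_eq_one_iff_adj.2 ((adj_iff _ _).2 h)).le

/-- the ball of radius `k` -/
noncomputable def ball (k : ℕ) (v : W) : Finset W := Finset.univ.filter fun u => G.dist u v ≤ k

theorem mem_ball (k : ℕ) (v u : W) : u ∈ ball k v ↔ G.dist u v ≤ k := by
  simp [ball]

theorem card_ball_one (v : W) : (ball 1 v).card = 16 := by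
  have h : ball 1 v = Finset.univ.filter fun u : W => (decide (u = v) || adjB u v) = true := by
    ext u
    rw [mem_ball, dist_le_one_iff]
    simp
  rw [h]
  clear h
  revert v
  decide +kernel

theorem card_ball_two (v : W) : (ball 2 v).card ≤ 30 := by
  have h : ball 2 v ⊆ Finset.univ.filter fun u : W => cyc (u.1 - v.1) ≤ 2 := by
    intro u hu
    rw [mem_ball] at hu
    have := cyc_le_dist u v
    simp only [Finset.mem_filter, Finset.mem_univ, true_and]
    omega
  refine (Finset.card_le_card h).trans ?_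
  clear h
  revert v
  decide +kernel

theorem card_ball_three (v : W) : (ball 3 v).card ≤ 42 := by
  have h : ball 3 v ⊆ Finset.univ.filter fun u : W => cyc (u.1 - v.1) ≤ 3 := by
    intro u hu
    rw [mem_ball] at hu
    have := cyc_le_dist u v
    simp only [Finset.mem_filter, Finset.mem_univ, true_and]
    omega
  refine (Finset.card_le_card h).trans ?_
  clear h
  revert v
  decide +kernel

theorem card_univ48 : (Finset.univ : Finset W).card = 48 := by
  decide +kernel

theorem card_ball_le (k : ℕ) (hk : 1 ≤ k) (v : W) : (ball k v).card ≤ 16 * k := by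
  have h48 : (ball k v).card ≤ 48 := by
    rw [← card_univ48]
    exact Finset.card_le_univ _
  rcases Nat.lt_or_ge k 3 with h | h
  · interval_cases k
    · rw [card_ball_one]
    · have := card_ball_two v
      omega
  · omega

/-- balls of radius `2` or `3` are not tight -/
theorem card_ball_lt (k : ℕ) (hk : 2 ≤ k) (hk3 : k ≤ 3) (v : W) : (ball k v).card < 16 * k := by
  interval_cases k
  · have := card_ball_two v
    omega
  · have := card_ball_three v
    omega

/-- there is no perfect code -/
theorem no_code_aux : ∀ v : W, ∃ w : W, ∀ u : W, (u = w ∨ adjB u w = true) →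
    u ≠ v ∧ ∃ y : W, (u = y ∨ adjB u y = true) ∧ (v = y ∨ adjB v y = true) := by
  rintro ⟨i, a⟩
  refine ⟨(i, a + 2), ?_⟩
  have key : ∀ (i : Fin 8) (a : Fin 6) (u : W), (u = (i, a + 2) ∨ adjB u (i, a + 2) = true) →
      u ≠ (i, a) ∧ (((u = (i + 1, 0) ∨ adjB u (i + 1, 0) = true) ∧
        ((i, a) = (i + 1, 0) ∨ adjB (i, a) (i + 1, 0) = true)) ∨
        ((u = u ∨ adjB u u = true) ∧ ((i, a) = u ∨ adjB (i, a) u = true))) := by
    decide +kernel
  intro u hu
  obtain ⟨h1, h2⟩ := key i a u hu
  refine ⟨h1, ?_⟩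
  rcases h2 with h2 | h2
  · exact ⟨_, h2⟩
  · exact ⟨_, h2⟩

theorem no_code (S : Finset W) (h : ∀ y, (S.filter fun v => v ∈ ball 1 y).card = 1) : False := by
  have h0 := h (0, 0)
  obtain ⟨v, hv⟩ := Finset.card_pos.1 (h0 ▸ Nat.one_pos)
  rw [Finset.mem_filter] at hv
  obtain ⟨w, hw⟩ := no_code_aux v
  obtain ⟨u, hu⟩ := Finset.card_pos.1 ((h w) ▸ Nat.one_pos)
  rw [Finset.mem_filter, mem_ball, dist_le_one_iff] at hu
  obtain ⟨hne, y, hy1, hy2⟩ := hw u hu.2
  have h1 := h y
  have h2 : 1 < (S.filter fun v => v ∈ ball 1 y).card := by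
    rw [Finset.one_lt_card]
    refine ⟨u, ?_, v, ?_, hne⟩
    · rw [Finset.mem_filter, mem_ball, dist_le_one_iff]
      exact ⟨hu.1, hy1⟩
    · rw [Finset.mem_filter, mem_ball, dist_le_one_iff]
      exact ⟨hv.1, hy2⟩
  omega

/-- a set of at most `3` vertices dominating everything is a perfect code -/
theorem sum_filter (S : Finset W) : ∑ y, (S.filter fun v => v ∈ ball 1 y).card = 16 * S.card := by
  have h : ∀ y, (S.filter fun v => v ∈ ball 1 y).card = ∑ v ∈ S, if v ∈ ball 1 y then 1 else 0 := by
    intro y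
    rw [Finset.card_filter]
  simp_rw [h]
  rw [Finset.sum_comm]
  have h2 : ∀ v ∈ S, (∑ y, if v ∈ ball 1 y then 1 else 0) = 16 := by
    intro v _
    rw [← Finset.card_filter]
    rw [← card_ball_one v]
    congr 1
    ext y
    simp [mem_ball, G.dist_comm]
  rw [Finset.sum_congr rfl h2]
  simp [mul_comm]

/-- no multipacking has size at least `3` -/
theorem multipacking_le (M : Finset W) (hM : IsMultipacking G M) : M.card ≤ 2 := by
  by_contra hc
  push Not at hc
  have h1 : ∀ y, (M.filter fun v => v ∈ ball 1 y).card ≤ 1 := by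
    intro y
    have := hM y 1 le_rfl
    have h2 : {u | u ∈ M ∧ G.dist u y ≤ 1} = ((M.filter fun v => v ∈ ball 1 y : Finset W) : Set W) := by
      ext u
      simp [mem_ball]
    rw [h2, Set.ncard_coe_finset] at this
    exact this
  have h3 := sum_filter M
  refine no_code M fun y => ?_
  by_contra hy
  have h4 : ∑ y, (M.filter fun v => v ∈ ball 1 y).card < ∑ _y : W, 1 :=
    Finset.sum_lt_sum (fun y _ => h1 y) ⟨y, Finset.mem_univ _, lt_of_le_of_ne (h1 y) hy⟩
  rw [h3] at h4
  simp only [Finset.sum_const, smul_eq_mul, mul_one, card_univ48] at h4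
  omega

/-- every dominating broadcast costs at least `4` -/
theorem broadcast_ge (f : W → ℕ) (hf : IsDominatingBroadcast G f) : 4 ≤ ∑ v, f v := by
  by_contra hc
  push Not at hc
  have hle : ∀ v, f v ≤ 3 := by
    intro v
    have := Finset.single_le_sum (fun w _ => Nat.zero_le (f w)) (Finset.mem_univ v)
    omega
  set S := Finset.univ.filter fun v => 1 ≤ f v with hS
  have hcover : (Finset.univ : Finset W) ⊆ S.biUnion fun v => ball (f v) v := by
    intro u _
    obtain ⟨v, hv1, hv2⟩ := hf.dominates u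
    rw [Finset.mem_biUnion]
    exact ⟨v, by simp [hS, hv1], (mem_ball _ _ _).2 hv2⟩
  have h48 : 48 ≤ ∑ v ∈ S, (ball (f v) v).card := by
    rw [← card_univ48]
    exact (Finset.card_le_card hcover).trans Finset.card_biUnion_le
  have hsum : ∑ v ∈ S, f v = ∑ v, f v := by
    rw [hS, Finset.sum_filter]
    refine Finset.sum_congr rfl fun v _ => ?_
    split_ifs with h
    · rfl
    · omega
  have hall : ∀ v ∈ S, f v = 1 := by
    by_contra hne
    push Not at hne
    obtain ⟨v, hv, hv1⟩ := hne
    have h1 : ∑ v ∈ S, (ball (f v) v).card < ∑ v ∈ S, 16 * f v := by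
      refine Finset.sum_lt_sum (fun w hw => card_ball_le _ ?_ w) ⟨v, hv, ?_⟩
      · simpa [hS] using hw
      · refine card_ball_lt _ ?_ (hle v) v
        have : 1 ≤ f v := by simpa [hS] using hv
        omega
    rw [← Finset.mul_sum, hsum] at h1
    omega
  have hcard : S.card ≤ 3 := by
    have : ∑ v ∈ S, f v = S.card := by
      rw [Finset.sum_congr rfl hall]
      simp
    omega
  have h1 : ∀ y, 1 ≤ (S.filter fun v => v ∈ ball 1 y).card := by
    intro y
    obtain ⟨v, hv1, hv2⟩ := hf.dominates y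
    have hvS : v ∈ S := by simp [hS, hv1]
    rw [hall v hvS] at hv2
    apply Finset.card_pos.2
    refine ⟨v, ?_⟩
    rw [Finset.mem_filter, mem_ball, G.dist_comm]
    exact ⟨hvS, hv2⟩
  have h3 := sum_filter S
  refine no_code S fun y => ?_
  by_contra hy
  have h4 : ∑ _y : W, 1 < ∑ y, (S.filter fun v => v ∈ ball 1 y).card :=
    Finset.sum_lt_sum (fun y _ => h1 y) ⟨y, Finset.mem_univ _, lt_of_le_of_ne (h1 y) (Ne.symm hy)⟩
  rw [h3] at h4
  simp only [Finset.sum_const, smul_eq_mul, mul_one, card_univ48] at h4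
  omega

theorem ecc_pos (v : W) : 1 ≤ ecc G v := by
  have h1 : G.Adj (v.1 + 1, v.2) v := by
    rw [adj_iff]
    revert v
    decide +kernel
  have h2 := dist_eq_one_iff_adj.2 h1
  rw [← h2]
  exact Finset.le_sup (f := fun u => G.dist u v) (Finset.mem_univ (v.1 + 1, v.2))

/-- the uniform primal solution -/
theorem feasible : IsFeasible G fun _ k => if k = 1 then (1 / 16 : ℝ) else 0 := by
  constructor
  · intro v k _
    positivity
  · intro u
    have h1 : ∀ v : W, (∑ k ∈ Finset.Icc 1 (ecc G v), if G.dist u v ≤ k then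
        (if k = 1 then (1 / 16 : ℝ) else 0) else 0) = if v ∈ ball 1 u then (1 / 16 : ℝ) else 0 := by
      intro v
      rw [Finset.sum_eq_single 1]
      · simp [mem_ball, G.dist_comm]
      · intro k _ hk
        simp [hk]
      · intro h
        exact absurd (Finset.mem_Icc.2 ⟨le_rfl, ecc_pos v⟩) h
    simp_rw [h1]
    rw [← Finset.sum_filter, Finset.sum_const]
    have h2 : (Finset.univ.filter fun v => v ∈ ball 1 u) = ball 1 u := by
      ext
      simp
    rw [h2, card_ball_one]
    norm_num

theorem cost_feasible : ∑ v : W, ∑ k ∈ Finset.Icc 1 (ecc G v),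
    (k : ℝ) * (if k = 1 then (1 / 16 : ℝ) else 0) = 3 := by
  have h1 : ∀ v : W, ∑ k ∈ Finset.Icc 1 (ecc G v), (k : ℝ) * (if k = 1 then (1 / 16 : ℝ) else 0)
      = 1 / 16 := by
    intro v
    rw [Finset.sum_eq_single 1]
    · simp
    · intro k _ hk
      simp [hk]
    · intro h
      exact absurd (Finset.mem_Icc.2 ⟨le_rfl, ecc_pos v⟩) h
  simp_rw [h1]
  rw [Finset.sum_const, card_univ48]
  norm_num

/-- weak duality with the uniform dual solution -/
theorem cost_ge (x : W → ℕ → ℝ) (hx : IsFeasible G x) :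
    3 ≤ ∑ v, ∑ k ∈ Finset.Icc 1 (ecc G v), (k : ℝ) * x v k := by
  have h1 : (48 : ℝ) ≤ ∑ u, ∑ v, ∑ k ∈ Finset.Icc 1 (ecc G v),
      if G.dist u v ≤ k then x v k else 0 := by
    have := Finset.sum_le_sum fun u (_ : u ∈ (Finset.univ : Finset W)) => hx.dominates u
    rw [Finset.sum_const, card_univ48] at this
    simpa using this
  have h2 : (∑ u, ∑ v, ∑ k ∈ Finset.Icc 1 (ecc G v), if G.dist u v ≤ k then x v k else 0)
      = ∑ v, ∑ k ∈ Finset.Icc 1 (ecc G v), ((ball k v).card : ℝ) * x v k := by
    rw [Finset.sum_comm]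
    refine Finset.sum_congr rfl fun v _ => ?_
    rw [Finset.sum_comm]
    refine Finset.sum_congr rfl fun k _ => ?_
    rw [← Finset.sum_filter, Finset.sum_const, nsmul_eq_mul]
    rfl
  have h3 : ∑ v, ∑ k ∈ Finset.Icc 1 (ecc G v), ((ball k v).card : ℝ) * x v k
      ≤ ∑ v, ∑ k ∈ Finset.Icc 1 (ecc G v), 16 * ((k : ℝ) * x v k) := by
    refine Finset.sum_le_sum fun v _ => Finset.sum_le_sum fun k hk => ?_
    have h4 := card_ball_le k (Finset.mem_Icc.1 hk).1 v
    have h5 : ((ball k v).card : ℝ) ≤ 16 * k := by exact_mod_cast h4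
    have h6 := hx.nonneg v k hk
    nlinarith
  have h7 : ∑ v, ∑ k ∈ Finset.Icc 1 (ecc G v), 16 * ((k : ℝ) * x v k)
      = 16 * ∑ v, ∑ k ∈ Finset.Icc 1 (ecc G v), (k : ℝ) * x v k := by
    rw [Finset.mul_sum]
    refine Finset.sum_congr rfl fun v _ => ?_
    rw [Finset.mul_sum]
  linarith

theorem fractional_eq : fractionalBroadcastNumber G = 3 := by
  apply IsLeast.csInf_eq
  refine ⟨⟨_, feasible, cost_feasible⟩, ?_⟩
  rintro c ⟨x, hx, rfl⟩
  exact cost_ge x hx

theorem multipacking_lt : multipackingNumber G < 3 := by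
  have h : multipackingNumber G ≤ 2 := by
    apply csSup_le
    · exact ⟨0, ∅, by intro v k _; simp, rfl⟩
    · rintro m ⟨M, hM, rfl⟩
      exact multipacking_le M hM
  omega

theorem broadcast_gt : 3 < broadcastNumber G := by
  have hne : {c | ∃ f : W → ℕ, IsDominatingBroadcast G f ∧ ∑ v, f v = c}.Nonempty := by
    refine ⟨_, fun v => ecc G v, ⟨fun v => le_rfl, fun u => ⟨u, ecc_pos u, ?_⟩⟩, rfl⟩
    simp
  obtain ⟨f, hf, hs⟩ := Nat.sInf_mem hne
  have := broadcast_ge f hf
  rw [hs] at this
  exact this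

/-- **MP_93535d_co, Q1, positive answer.**  There is a finite connected graph whose fractional
broadcast number is an integer `n` with `mp(G) < n < γ_b(G)`. -/
theorem result : ∃ (V : Type) (_ : Fintype V) (G : SimpleGraph V), G.Connected ∧
    ∃ n : ℕ, fractionalBroadcastNumber G = n ∧ multipackingNumber G < n ∧
      n < broadcastNumber G :=
  ⟨W, inferInstance, G, connected, 3, by rw [fractional_eq]; norm_num, multipacking_lt,
    broadcast_gt⟩

end Pool.Agent.Results.MP_93535d_co.PerfectCodeFree
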